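import Pool.Agent.Lib.MP_fb02f1_lc.H30.Hard

/-!
# The functions computed by multi-stack Turing machines in polynomial time are polynomial-time
functions in the sense of the tree programs
-/

namespace Pool.Agent.OrbH30

open Turing Turing.TM2 Computability Pool.Agent.TMLib Pool.Agent.Shoped30

/-! ### Finite types -/

/-- A copy of a finite type, encoded by the numbers of its elements. -/
structure W (Q : Type) where
  /-- The element. -/
  v : Q

noncomputable instance instTrEncW {Q : Type} [Finite Q] : TrEnc (W Q) :=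
  ⟨fun q => enc ((Finite.equivFin Q q.v).val)⟩

section fin

variable {α β Q R : Type} [TrEnc α] [TrEnc β] [Finite Q] [Finite R]

theorem pt_code {q : α → W Q} (hq : PTime q) : PTime (fun a => (Finite.equivFin Q (q a).v).val) :=
  hq.congrEnc (fun a => a) (fun _ => rfl) (fun _ => rfl)

/-- Case distinction over a finite type. -/
theorem finCases {q : α → W Q} (hq : PTime q) {F : Q → α → β} (hF : ∀ x, PTime (F x)) :
    PTime (fun a => F (q a).v a) := by
  classical
  have key : ∀ (l : List Q), ∀ G : α → β, PTime G → PTime (fun a =>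
      if (q a).v ∈ l then F (q a).v a else G a) := by
    intro l
    induction l with
    | nil => intro G hG; exact hG.of_eq (fun a => by simp)
    | cons x l ih =>
      intro G hG
      refine PTime.of_eq (f := fun a => if decide ((Finite.equivFin Q (q a).v).val =
        (Finite.equivFin Q x).val) = true then F x a else
          (if (q a).v ∈ l then F (q a).v a else G a)) (PTime.ite (pt_eq (pt_code hq)
            (PTime.const _)) (hF x) (ih G hG)) (fun a => ?_)
      by_cases h : (q a).v = x
      · simp [h]
      · have h' : ¬ (Finite.equivFin Q (q a).v).val = (Finite.equivFin Q x).val := by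
          intro h1
          exact h ((Finite.equivFin Q).injective (Fin.ext h1))
        simp [h, h']
  obtain ⟨l, hl⟩ := exists_list Q
  rcases isEmpty_or_nonempty α with hα | ⟨⟨a0⟩⟩
  · exact ⟨fun _ => 0, PB.const 0, .skip, fun a => isEmptyElim a⟩
  · refine (key l (F (q a0).v) (hF _)).of_eq (fun a => ?_)
    rw [if_pos (hl _)]

theorem finFun {q : α → W Q} (hq : PTime q) (F : Q → β) : PTime (fun a => F (q a).v) :=
  finCases hq (F := fun x _ => F x) (fun x => PTime.const _)

theorem sz_W_bound (Q : Type) [Finite Q] : ∃ C, ∀ q : W Q, sz q ≤ C := by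
  refine ⟨2 * Nat.card Q + 1, fun q => ?_⟩
  have h : sz q = sz ((Finite.equivFin Q q.v).val) := rfl
  rw [h, sz_nat]
  have := (Finite.equivFin Q q.v).isLt
  omega

end fin

/-! ### Families of stacks -/

/-- A family of stacks. -/
structure Stk (K : Type) (Γ : K → Type) where
  /-- The stacks. -/
  s : ∀ k, List (Γ k)

section stk

variable {α : Type} [TrEnc α] {K : Type} [Fintype K] {Γ : K → Type} [∀ k, Finite (Γ k)]

noncomputable instance instTrEncStk : TrEnc (Stk K Γ) :=
  ⟨fun S => enc ((Finset.univ.toList : List K).map fun k => (enc ((S.s k).map W.mk) : Tr))⟩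

theorem pt_constMap {ι : Type} (l : List ι) {G : ι → α → Tr} (h : ∀ k, PTime (G k)) :
    PTime (fun a => l.map (fun k => G k a)) := by
  induction l with
  | nil => exact PTime.const _
  | cons k l ih => exact PTime.cons (h k) ih

theorem pt_stk {f : α → Stk K Γ} (h : ∀ k, PTime (fun a => ((f a).s k).map W.mk)) : PTime f :=
  (pt_constMap (Finset.univ.toList : List K) (fun k => (h k).toTr)).congrEnc (fun a => a)
    (fun _ => rfl) (fun _ => rfl)

theorem pt_stk_proj [DecidableEq K] {f : α → Stk K Γ} (hf : PTime f) (k : K) :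
    PTime (fun a => ((f a).s k).map W.mk) := by
  have h1 : PTime (fun a => (Finset.univ.toList : List K).map
      fun k => (enc (((f a).s k).map W.mk) : Tr)) :=
    hf.congrEnc (fun a => a) (fun _ => rfl) (fun _ => rfl)
  have h2 : PTime (fun a => ((Finset.univ.toList : List K).map
      fun k => (enc (((f a).s k).map W.mk) : Tr)).getD
        ((Finset.univ.toList : List K).idxOf k) .nil) :=
    PTime.getD (PTime.const _) h1 (PTime.const _)
  refine h2.congrEnc (fun a => a) (fun _ => rfl) (fun a => ?_)
  have hk : (Finset.univ.toList : List K).idxOf k < (Finset.univ.toList : List K).length :=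
    List.idxOf_lt_length_of_mem (Finset.mem_toList.2 (Finset.mem_univ k))
  rw [List.getD_eq_getElem _ _ (by rwa [List.length_map]), List.getElem_map, List.getElem_idxOf]
  rfl

theorem sz_stk_le (C N : ℕ) (hC : ∀ k, ∀ q : W (Γ k), sz q ≤ C) (S : Stk K Γ)
    (hN : ∀ k, (S.s k).length ≤ N) :
    sz S ≤ Fintype.card K * (N * (C + 1) + 1 + 1) + 1 := by
  have h : sz S = sz ((Finset.univ.toList : List K).map
    fun k => (enc ((S.s k).map W.mk) : Tr)) := rfl
  rw [h]
  refine (sz_le_of_forall _ (N * (C + 1) + 1) ?_).trans ?_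
  · intro a ha
    obtain ⟨k, -, rfl⟩ := List.mem_map.1 ha
    have h1 := sz_le_of_forall ((S.s k).map W.mk) C (fun q _ => hC k q)
    rw [List.length_map] at h1
    have h2 : (S.s k).length * (C + 1) ≤ N * (C + 1) := Nat.mul_le_mul (hN k) le_rfl
    exact h1.trans (by omega)
  · rw [List.length_map, Finset.length_toList, Finset.card_univ]

end stk

/-! ### The machine -/

section tm

variable {K : Type} [DecidableEq K] [Fintype K] {Γ : K → Type} [∀ k, Finite (Γ k)]
  {Λ σ : Type} [Finite Λ] [Finite σ]

/-- The configurations, as an encoded type. -/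
abbrev Cf (Γ : K → Type) (Λ σ : Type) := W (Option Λ) × W σ × Stk K Γ

/-- A configuration as an element of the encoded type. -/
def toCf (c : Cfg Γ Λ σ) : Cf Γ Λ σ := (⟨c.l⟩, ⟨c.var⟩, ⟨c.stk⟩)

/-- The converse. -/
def ofCf (c : Cf Γ Λ σ) : Cfg Γ Λ σ := ⟨c.1.v, c.2.1.v, c.2.2.s⟩

theorem pt_head {α : Type} [TrEnc α] {f : α → Stk K Γ} (hf : PTime f) (k : K) :
    PTime (fun a => (⟨((f a).s k).head?⟩ : W (Option (Γ k)))) := by
  have h1 := pt_stk_proj hf k
  have h2 : PTime (fun p : α × W (Γ k) × List (W (Γ k)) =>
      (⟨some p.2.1.v⟩ : W (Option (Γ k)))) :=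
    finFun (q := fun p : α × W (Γ k) × List (W (Γ k)) => p.2.1) (by fun_prop)
      (fun x => (⟨some x⟩ : W (Option (Γ k))))
  refine (PTime.listCases (l := fun a => ((f a).s k).map W.mk)
      (g := fun _ => (⟨none⟩ : W (Option (Γ k)))) (h := fun _ c _ => ⟨some c.v⟩) h1
      (PTime.const _) h2).of_eq (fun a => ?_)
  cases (f a).s k <;> rfl

theorem pt_upd {α : Type} [TrEnc α] {f : α → Stk K Γ} (hf : PTime f) (k : K)
    {l : α → List (Γ k)} (hl : PTime (fun a => (l a).map W.mk)) :
    PTime (fun a => (⟨Function.update (f a).s k (l a)⟩ : Stk K Γ)) := by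
  refine pt_stk (fun k' => ?_)
  by_cases h : k' = k
  · subst h
    exact hl.of_eq (fun a => by simp)
  · exact (pt_stk_proj hf k').of_eq (fun a => by simp [h])

theorem pt_stepAux (q : Stmt Γ Λ σ) :
    PTime (fun p : W σ × Stk K Γ => toCf (stepAux q p.1.v p.2.s)) := by
  induction q with
  | push k f q ih =>
    refine ih.comp (f := fun p : W σ × Stk K Γ =>
      (p.1, (⟨Function.update p.2.s k (f p.1.v :: p.2.s k)⟩ : Stk K Γ))) ?_
    refine PTime.pair (by fun_prop) (pt_upd (f := fun p : W σ × Stk K Γ => p.2) (by fun_prop) k ?_)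
    exact PTime.cons (finFun (q := fun p : W σ × Stk K Γ => p.1) (by fun_prop)
      (fun v => (⟨f v⟩ : W (Γ k)))) (pt_stk_proj (by fun_prop) k)
  | peek k f q ih =>
    refine ih.comp (f := fun p : W σ × Stk K Γ =>
      ((⟨f p.1.v (p.2.s k).head?⟩ : W σ), p.2)) ?_
    refine PTime.pair ?_ (by fun_prop)
    exact finCases (q := fun p : W σ × Stk K Γ => p.1) (by fun_prop)
      (F := fun v p => (⟨f v (p.2.s k).head?⟩ : W σ)) (fun v =>
        finFun (pt_head (f := fun p : W σ × Stk K Γ => p.2) (by fun_prop) k)
          (fun o => (⟨f v o⟩ : W σ)))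
  | pop k f q ih =>
    refine ih.comp (f := fun p : W σ × Stk K Γ =>
      ((⟨f p.1.v (p.2.s k).head?⟩ : W σ),
        (⟨Function.update p.2.s k (p.2.s k).tail⟩ : Stk K Γ))) ?_
    refine PTime.pair ?_ (pt_upd (f := fun p : W σ × Stk K Γ => p.2) (by fun_prop) k ?_)
    · exact finCases (q := fun p : W σ × Stk K Γ => p.1) (by fun_prop)
        (F := fun v p => (⟨f v (p.2.s k).head?⟩ : W σ)) (fun v =>
          finFun (pt_head (f := fun p : W σ × Stk K Γ => p.2) (by fun_prop) k)
            (fun o => (⟨f v o⟩ : W σ)))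
    · refine (PTime.tail (pt_stk_proj (f := fun p : W σ × Stk K Γ => p.2)
        (by fun_prop) k)).of_eq (fun p => ?_)
      cases p.2.s k <;> rfl
  | load f q ih =>
    refine ih.comp (f := fun p : W σ × Stk K Γ => ((⟨f p.1.v⟩ : W σ), p.2)) ?_
    exact PTime.pair (finFun (q := fun p : W σ × Stk K Γ => p.1) (by fun_prop)
      (fun v => (⟨f v⟩ : W σ))) (by fun_prop)
  | branch f q₁ q₂ ih₁ ih₂ =>
    refine (PTime.cond (c := fun p : W σ × Stk K Γ => f p.1.v)
      (finFun (q := fun p : W σ × Stk K Γ => p.1) (by fun_prop) f) ih₁ ih₂).of_eq (fun p => ?_)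
    have e : stepAux (Stmt.branch f q₁ q₂) p.1.v p.2.s =
      cond (f p.1.v) (stepAux q₁ p.1.v p.2.s) (stepAux q₂ p.1.v p.2.s) := rfl
    rw [e]
    cases f p.1.v <;> rfl
  | goto l =>
    exact (PTime.pair (finFun (q := fun p : W σ × Stk K Γ => p.1) (by fun_prop)
      (fun v => (⟨some (l v)⟩ : W (Option Λ)))) PTime.id').of_eq (fun p => rfl)
  | halt =>
    exact (PTime.pair (PTime.const (⟨none⟩ : W (Option Λ))) PTime.id').of_eq (fun p => rfl)

/-- The total step function. -/
def totStep (m : Λ → Stmt Γ Λ σ) (c : Cfg Γ Λ σ) : Cfg Γ Λ σ :=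
  match c.l with
  | none => c
  | some l => stepAux (m l) c.var c.stk

theorem pt_totStep (m : Λ → Stmt Γ Λ σ) :
    PTime (fun c : Cf Γ Λ σ => toCf (totStep m (ofCf c))) := by
  refine finCases (q := fun c : Cf Γ Λ σ => c.1) (by fun_prop)
    (F := fun o c => match o with
      | none => toCf (⟨none, c.2.1.v, c.2.2.s⟩ : Cfg Γ Λ σ)
      | some l => toCf (stepAux (m l) c.2.1.v c.2.2.s)) (fun o => ?_) |>.of_eq (fun c => ?_)
  · cases o with
    | none =>
      exact (PTime.pair (PTime.const (⟨none⟩ : W (Option Λ))) (g := fun c : Cf Γ Λ σ => c.2)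
        (by fun_prop)).of_eq (fun p => rfl)
    | some l => exact (pt_stepAux (m l)).comp (f := fun c : Cf Γ Λ σ => c.2) (by fun_prop)
  · obtain ⟨⟨o⟩, ⟨v⟩, ⟨S⟩⟩ := c
    cases o <;> rfl

omit [Fintype K] [∀ k, Finite (Γ k)] [Finite Λ] [Finite σ] in
theorem len_stepAux (q : Stmt Γ Λ σ) : ∀ (v : σ) (S : ∀ k, List (Γ k)) (k' : K),
    ((stepAux q v S).stk k').length ≤ (S k').length + ssize q := by
  induction q with
  | push k f q ih =>
    intro v S k'
    have h := ih v (Function.update S k (f v :: S k)) k'
    have e : stepAux (Stmt.push k f q) v S = stepAux q v (Function.update S k (f v :: S k)) := rfl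
    rw [e]
    refine h.trans ?_
    simp only [ssize]
    by_cases hk : k' = k
    · subst hk; simp; omega
    · rw [Function.update_of_ne hk]; omega
  | peek k f q ih =>
    intro v S k'
    have h := ih (f v (S k).head?) S k'
    have e : stepAux (Stmt.peek k f q) v S = stepAux q (f v (S k).head?) S := rfl
    rw [e]
    simp only [ssize]; omega
  | pop k f q ih =>
    intro v S k'
    have h := ih (f v (S k).head?) (Function.update S k (S k).tail) k'
    have e : stepAux (Stmt.pop k f q) v S = stepAux q (f v (S k).head?)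
      (Function.update S k (S k).tail) := rfl
    rw [e]
    refine h.trans ?_
    simp only [ssize]
    by_cases hk : k' = k
    · subst hk; simp; omega
    · rw [Function.update_of_ne hk]; omega
  | load f q ih =>
    intro v S k'
    have h := ih (f v) S k'
    have e : stepAux (Stmt.load f q) v S = stepAux q (f v) S := rfl
    rw [e]
    simp only [ssize]; omega
  | branch f q₁ q₂ ih₁ ih₂ =>
    intro v S k'
    have e : stepAux (Stmt.branch f q₁ q₂) v S = cond (f v) (stepAux q₁ v S) (stepAux q₂ v S) :=
      rfl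
    rw [e]
    have h1 := ih₁ v S k'
    have h2 := ih₂ v S k'
    simp only [ssize]
    cases f v
    · simp only [cond_false]; omega
    · simp only [cond_true]; omega
  | goto l => intro v S k'; exact Nat.le_add_right _ _
  | halt => intro v S k'; exact Nat.le_add_right _ _

omit [Fintype K] [∀ k, Finite (Γ k)] [Finite Λ] [Finite σ] in
theorem len_iter (m : Λ → Stmt Γ Λ σ) (D : ℕ) (hD : ∀ l, ssize (m l) ≤ D) (n : ℕ)
    (c : Cfg Γ Λ σ) (k : K) :
    (((totStep m)^[n] c).stk k).length ≤ (c.stk k).length + n * D := by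
  induction n with
  | zero => simp
  | succ n ih =>
    rw [Function.iterate_succ_apply']
    refine le_trans ?_ (b := (((totStep m)^[n] c).stk k).length + D) ?_
    · generalize (totStep m)^[n] c = c'
      obtain ⟨l, v, S⟩ := c'
      cases l with
      | none => exact Nat.le_add_right _ _
      | some l => exact (len_stepAux (m l) v S k).trans (Nat.add_le_add_left (hD l) _)
    · have : (n + 1) * D = n * D + D := by ring
      omega

omit [Fintype K] [∀ k, Finite (Γ k)] [Finite Λ] [Finite σ] in
theorem tot_of_evals (m : Λ → Stmt Γ Λ σ) (n : ℕ) : ∀ (c c' : Cfg Γ Λ σ),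
    (flip bind (TM2.step m))^[n] (some c) = some c' → (totStep m)^[n] c = c' := by
  have hnone : ∀ n, (flip bind (TM2.step m))^[n] (none : Option (Cfg Γ Λ σ)) = none := by
    intro n
    induction n with
    | zero => rfl
    | succ n ih => rw [Function.iterate_succ_apply]; exact ih
  induction n with
  | zero => intro c c' h; injection h
  | succ n ih =>
    intro c c' h
    rw [Function.iterate_succ_apply] at h ⊢
    have e : flip bind (TM2.step m) (some c) = TM2.step m c := rfl
    rw [e] at h
    obtain ⟨l, v, S⟩ := c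
    cases l with
    | none =>
      have e2 : TM2.step m ⟨none, v, S⟩ = none := rfl
      rw [e2, hnone] at h
      exact absurd h (by simp)
    | some l => exact ih _ _ h

omit [Fintype K] [∀ k, Finite (Γ k)] [Finite Λ] [Finite σ] in
theorem tot_halt (m : Λ → Stmt Γ Λ σ) (c : Cfg Γ Λ σ) (hc : c.l = none) (n : ℕ) :
    (totStep m)^[n] c = c := by
  refine Function.iterate_fixed ?_ n
  unfold totStep
  rw [hc]

end tm

/-- **From machines to tree programs.** -/
theorem ptime_of_machine {β : Type} {eb : β → List Bool} {f : List Bool → β}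
    (h : PolyTime (id : List Bool → List Bool) eb f) : PTime (fun w => eb (f w)) := by
  classical
  obtain ⟨M, hfin⟩ := h
  have : Fintype M.tm.K := M.tm.kFin
  have : Fintype M.tm.Λ := M.tm.ΛFin
  have : Fintype M.tm.σ := M.tm.σFin
  obtain ⟨D, hD⟩ : ∃ D, ∀ l, ssize (M.tm.m l) ≤ D :=
    ⟨Finset.univ.sup fun l => ssize (M.tm.m l),
      fun l => Finset.le_sup (f := fun l => ssize (M.tm.m l)) (Finset.mem_univ l)⟩
  -- the initial configuration
  have hinit : PTime (fun w : List Bool => toCf (initList M.tm (w.map M.inputAlphabet.invFun))) := by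
    refine (PTime.pair (PTime.const (⟨some M.tm.main⟩ : W (Option M.tm.Λ)))
      (PTime.pair (PTime.const (⟨M.tm.initialState⟩ : W M.tm.σ))
        (g := fun w : List Bool => (⟨(initList M.tm (w.map M.inputAlphabet.invFun)).stk⟩ :
          Stk M.tm.K M.tm.Γ)) (pt_stk (fun k => ?_)))).of_eq (fun w => rfl)
    by_cases hk : k = M.tm.k₀
    · subst hk
      refine (PTime.map (l := fun w : List Bool => w) (F := fun _ b =>
        (⟨M.inputAlphabet.invFun b⟩ : W (M.tm.Γ M.tm.k₀))) (by fun_prop) ?_).of_eq (fun w => ?_)
      · refine (PTime.ite (c := fun p : List Bool × Bool => p.2)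
          (f := fun _ => (⟨M.inputAlphabet.invFun true⟩ : W (M.tm.Γ M.tm.k₀)))
          (g := fun _ => (⟨M.inputAlphabet.invFun false⟩ : W (M.tm.Γ M.tm.k₀)))
          (by fun_prop) (PTime.const _) (PTime.const _)).of_eq (fun p => ?_)
        cases p.2 <;> rfl
      · simp [initList]
    · exact (PTime.const []).of_eq (fun w => by simp [initList, hk])
  -- the number of steps
  have hT : PTime (fun w : List Bool => M.time.eval w.length) := pt_poly _ (by fun_prop)
  -- the run
  obtain ⟨CΛ, hCΛ⟩ := sz_W_bound (Option M.tm.Λ)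
  obtain ⟨Cσ, hCσ⟩ := sz_W_bound M.tm.σ
  obtain ⟨CΓ, hCΓ⟩ : ∃ C, ∀ k, ∀ q : W (M.tm.Γ k), sz q ≤ C := by
    choose C hC using fun k => sz_W_bound (M.tm.Γ k)
    exact ⟨Finset.univ.sup C, fun k q => (hC k q).trans (Finset.le_sup (Finset.mem_univ k))⟩
  have hiter : ∀ (c : Cf M.tm.Γ M.tm.Λ M.tm.σ) (n : ℕ),
      (fun c : Cf M.tm.Γ M.tm.Λ M.tm.σ => toCf (totStep M.tm.m (ofCf c)))^[n] c =
        toCf ((totStep M.tm.m)^[n] (ofCf c)) := by
    intro c n
    induction n with
    | zero => rfl
    | succ n ih => rw [Function.iterate_succ_apply', ih, Function.iterate_succ_apply']; rfl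
  have hrun : PTime (fun w : List Bool => toCf ((totStep M.tm.m)^[M.time.eval w.length]
      (initList M.tm (w.map M.inputAlphabet.invFun)))) := by
    refine (PTime.iterate (F := fun (_ : List Bool) (c : Cf M.tm.Γ M.tm.Λ M.tm.σ) =>
      toCf (totStep M.tm.m (ofCf c))) hT hinit
      ((pt_totStep M.tm.m).comp (f := fun p : List Bool × Cf M.tm.Γ M.tm.Λ M.tm.σ => p.2)
        (by fun_prop))
      (fun w => CΛ + (Cσ + (Fintype.card M.tm.K * ((w.length + M.time.eval w.length * D) *
        (CΓ + 1) + 1 + 1) + 1) + 1) + 1) ?_ ?_).of_eq (fun w => ?_)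
    · have h1 : PTime (fun w : List Bool => w.length) := by fun_prop
      exact ((PB.const _).add (((PB.const _).add (((PB.const _).mul ((((PB.nat h1).add
        ((PB.nat hT).mul (PB.const _))).mul (PB.const _)).add (PB.const 1) |>.add
          (PB.const 1))).add (PB.const 1))).add (PB.const 1))).add (PB.const 1)
    · intro w i hi
      rw [hiter]
      have h1 : ∀ k, ((((totStep M.tm.m)^[i] (ofCf (toCf (initList M.tm
          (w.map M.inputAlphabet.invFun))))).stk) k).length ≤
            w.length + M.time.eval w.length * D := by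
        intro k
        refine (len_iter M.tm.m D hD i _ k).trans ?_
        have h2 : i * D ≤ M.time.eval w.length * D := Nat.mul_le_mul hi le_rfl
        have h3 : ((ofCf (toCf (initList M.tm
          (w.map M.inputAlphabet.invFun)))).stk k).length ≤ w.length := by
          by_cases hk : k = M.tm.k₀
          · subst hk
            simp [ofCf, toCf, initList]
          · simp [ofCf, toCf, initList, hk]
        omega
      have h4 := sz_stk_le CΓ (w.length + M.time.eval w.length * D) hCΓ
        (⟨((totStep M.tm.m)^[i] (ofCf (toCf (initList M.tm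
          (w.map M.inputAlphabet.invFun))))).stk⟩ : Stk M.tm.K M.tm.Γ) h1
      have h5 := hCΛ ⟨((totStep M.tm.m)^[i] (ofCf (toCf (initList M.tm
          (w.map M.inputAlphabet.invFun))))).l⟩
      have h6 := hCσ ⟨((totStep M.tm.m)^[i] (ofCf (toCf (initList M.tm
          (w.map M.inputAlphabet.invFun))))).var⟩
      unfold toCf
      rw [sz_prod', sz_prod']
      exact Nat.add_le_add_right (Nat.add_le_add h5 (Nat.add_le_add_right
        (Nat.add_le_add h6 h4) 1)) 1
    · rw [hiter]
      rfl
  -- the final configuration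
  have hfinal : ∀ w : List Bool, (totStep M.tm.m)^[M.time.eval w.length]
      (initList M.tm (w.map M.inputAlphabet.invFun)) = haltList M.tm
        ((eb (f w)).map M.outputAlphabet.invFun) := by
    intro w
    have hout := M.outputsFun w
    have h1 := tot_of_evals M.tm.m hout.steps _ _ hout.evals_in_steps
    have h0 : hout.steps ≤ M.time.eval w.length := hout.steps_le_m
    generalize hout.steps = N at h0 h1
    obtain ⟨d, hd⟩ := Nat.exists_eq_add_of_le h0
    have h3 : (totStep M.tm.m)^[N] (initList M.tm (w.map M.inputAlphabet.invFun)) =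
      haltList M.tm ((eb (f w)).map M.outputAlphabet.invFun) := h1
    rw [hd, Nat.add_comm, Function.iterate_add_apply, h3]
    exact tot_halt _ _ rfl _
  have hout := pt_stk_proj (f := fun w : List Bool => (toCf ((totStep M.tm.m)^[M.time.eval w.length]
      (initList M.tm (w.map M.inputAlphabet.invFun)))).2.2) hrun.snd.snd M.tm.k₁
  refine (PTime.map (F := fun _ (q : W (M.tm.Γ M.tm.k₁)) => M.outputAlphabet.toFun q.v) hout
    (finFun (q := fun p : List Bool × W (M.tm.Γ M.tm.k₁) => p.2) (by fun_prop)
      (fun x => M.outputAlphabet.toFun x))).of_eq (fun w => ?_)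
  have e : ((toCf ((totStep M.tm.m)^[M.time.eval w.length]
      (initList M.tm (w.map M.inputAlphabet.invFun)))).2.2).s M.tm.k₁ =
      (eb (f w)).map M.outputAlphabet.invFun := by
    rw [hfinal w]
    simp [toCf, haltList]
  rw [e, List.map_map, List.map_map]
  refine (List.map_id _).symm.trans (List.map_congr_left (fun b _ => ?_))
  simp

/-- A word function computed by a machine in polynomial time. -/
theorem ptime_of_polyTime {f : List Bool → List Bool}
    (h : PolyTime (id : List Bool → List Bool) (id : List Bool → List Bool) f) : PTime f :=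
  ptime_of_machine (eb := (id : List Bool → List Bool)) (f := f) h

/-- A predicate decided by a machine in polynomial time. -/
theorem ptime_of_polyTime_bool {R : List Bool → Bool}
    (h : PolyTime (id : List Bool → List Bool) encodeBool R) : PTime R := by
  refine (PTime.headD (ptime_of_machine h) (PTime.const false)).of_eq (fun w => ?_)
  rfl

/-- The converse for predicates. -/
theorem polyTime_bool {R : List Bool → Bool} (h : PTime R) :
    PolyTime (id : List Bool → List Bool) encodeBool R := by
  obtain ⟨M, hM⟩ := machine_finite (f := fun w => [R w]) (PTime.cons h (PTime.const []))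
  exact ⟨{ M with outputsFun := fun w => M.outputsFun w }, hM⟩

end Pool.Agent.OrbH30
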